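import Pool.Agent.SCT.StmtsP

/-!
# Squad SCT, row PDT: the determinant of the Pfaffian matrix over extensions
-/

set_option autoImplicit false

namespace Pool.Agent.SCT.H97

open MvPolynomial

/-- the matrix of linear forms -/
noncomputable def lm (E : Type) [Field E]
    (m : Fin (4 + 2) → Matrix (Fin (4 + 2)) (Fin (4 + 2)) E) :
    Matrix (Fin (4 + 2)) (Fin (4 + 2)) (MvPolynomial (Fin (4 + 2)) E) :=
  Matrix.of fun i j => ∑ k, X k * C (m k i j)

theorem lm_eval (E : Type) [Field E] (m : Fin (4 + 2) → Matrix (Fin (4 + 2)) (Fin (4 + 2)) E)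
    (z : Fin (4 + 2) → E) : eval z (lm E m).det = (pm E m z).det := by
  rw [RingHom.map_det]
  have h : (eval z).mapMatrix (lm E m) = pm E m z := by
    ext i j
    simp only [RingHom.mapMatrix_apply, Matrix.map_apply, lm, pm, Matrix.of_apply, map_sum,
      map_mul, eval_X, eval_C, Algebra.algebraMap_self, RingHom.id_apply]
  rw [h]

theorem lm_aeval (E : Type) [Field E] (m : Fin (4 + 2) → Matrix (Fin (4 + 2)) (Fin (4 + 2)) E)
    (Ω : Type) [Field Ω] [Algebra E Ω] (z : Fin (4 + 2) → Ω) :
    aeval z (lm E m).det = (pm E m z).det := by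
  rw [AlgHom.map_det]
  have h : (aeval z).mapMatrix (lm E m) = pm E m z := by
    ext i j
    simp only [AlgHom.mapMatrix_apply, Matrix.map_apply, lm, pm, Matrix.of_apply, map_sum,
      map_mul, aeval_X, aeval_C]
  rw [h]

theorem pdt : PdtStmt := by
  intro E _ _ f m c h Ω _ _ z
  have key : (lm E m).det = C c * f ^ 2 := by
    apply MvPolynomial.funext
    intro x
    rw [lm_eval, h.det, map_mul, map_pow, eval_C]
  rw [← lm_aeval, key, map_mul, map_pow, aeval_C]

end Pool.Agent.SCT.H97
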